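import Pool.Agent.H961.T3.Stm

/-!
# ENVT: lower bound for the traces in a good environment
-/

set_option autoImplicit false
set_option linter.unusedSectionVars false
set_option linter.unusedVariables false

namespace Pool.Agent.H784.MS

open Finset Equiv Matrix Q292.LC
open Pool.Agent.Q257.LC
open Pool.Agent.H961.T2 Pool.Agent.H961.T3

/-- the free kernel for the second part, the environment for the first part -/
theorem numA' (c3 C1 X Y f : ℝ) (h : f ≤ c3 * X) (h3 : 0 ≤ c3) (h1 : 0 ≤ C1) (hX : 0 ≤ X)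
    (hY : 0 ≤ Y) : C1 * Y + f ≤ (c3 + C1) * (X + Y) := by
  nlinarith [mul_nonneg h1 hX, mul_nonneg h3 hY]

theorem numC' (ρ Z d K' K a : ℝ) (hρ : ρ ≤ Z) (hρ0 : 0 ≤ ρ) (hZ : 1 ≤ Z) (hd : 0 ≤ d)
    (hK'0 : 0 ≤ K') (hK' : K' ≤ K) (ha : 0 ≤ a) :
    (8 * ρ + 16 * d + 1) * (K' * a) ≤ (9 + 16 * d) * (Z * K * a) := by
  have e1 : 8 * ρ + 16 * d + 1 ≤ (9 + 16 * d) * Z := by nlinarith
  have e2 : K' * a ≤ K * a := mul_le_mul_of_nonneg_right hK' ha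
  calc (8 * ρ + 16 * d + 1) * (K' * a) ≤ ((9 + 16 * d) * Z) * (K * a) :=
        mul_le_mul e1 e2 (by positivity) (by positivity)
    _ = _ := by ring

theorem numD' (s1 s2 t1 t2 a b W XY S CC d : ℝ) (h1 : s1 ≤ a * XY) (h2 : s2 ≤ b * XY)
    (h3 : t1 ≤ (9 + 16 * d) * W) (h4 : t2 ≤ (9 + 16 * d) * W) (ha : 0 ≤ a) (hb : 0 ≤ b)
    (hXY : 0 ≤ XY) (hW : 0 ≤ W) (ht1 : 0 ≤ t1) (ht2 : 0 ≤ t2) (hd : 0 ≤ d)
    (hS : S = (a + b) * (2 * (9 + 16 * d))) (hC : S ≤ CC) :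
    s1 * t1 + s2 * t2 ≤ CC * XY * W := by
  have g6 : s1 * t1 ≤ (a * XY) * ((9 + 16 * d) * W) := mul_le_mul h1 h3 ht1 (by positivity)
  have g7 : s2 * t2 ≤ (b * XY) * ((9 + 16 * d) * W) := mul_le_mul h2 h4 ht2 (by positivity)
  have g8 : S * XY * W ≤ CC * XY * W := by
    refine mul_le_mul_of_nonneg_right ?_ hW
    exact mul_le_mul_of_nonneg_right hC hXY
  have e9 : (a + b) * (2 * (9 + 16 * d)) * XY * W =
      (a * XY) * ((9 + 16 * d) * W) + (b * XY) * ((9 + 16 * d) * W) +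
      (a + b) * (9 + 16 * d) * (XY * W) := by ring
  rw [hS, e9] at g8
  have : 0 ≤ (a + b) * (9 + 16 * d) * (XY * W) := by positivity
  linarith

/-- comparison of the traces in a good environment, lower bound -/
theorem envt : S_ENVT := by
  intro d hd
  obtain ⟨C1, m1, c, hC1, hc, hker⟩ := ker2 d hd
  obtain ⟨Cf, hCf, hfre⟩ := fre d (by omega)
  have hd1 : 1 ≤ d := by omega
  obtain ⟨S, hS⟩ : ∃ S : ℝ, S = (Cf * ((1 / 3 : ℝ) ^ (-(d / 2 : ℝ)) + 1) +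
    ((c / 3) ^ (-(d / 2 : ℝ)) + C1)) * (2 * (9 + 16 * d)) := ⟨_, rfl⟩
  refine ⟨⌈S⌉₊ + C1, m1 + 2, by omega, ?_⟩
  intro Z hZ L K lam r ρ κ₀ _ hlam hρ hκ hLd hr hL hK
  obtain ⟨n1, n3, n4, n5, n6, hL3, n8, n9, n10⟩ :=
    nat_par Z m1 ρ r K L (by omega) hr hL hK
  obtain ⟨q1, hq1⟩ := hker Z (by omega) L (K / 2) lam r ρ κ₀ hlam hρ hκ hLd n1 n3 n5
  obtain ⟨q2, hq2⟩ := hfre L hL3 K
  refine ⟨q1 + q2 + 4 * d + 2, ?_⟩
  intro q hq σ hσ δ h1 h2 ω A hEv j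
  have hqr : (2 : ℝ) ≤ q := by
    have : 2 ≤ q := by omega
    exact_mod_cast this
  have hδ : 0 < δ := by
    by_contra h
    push Not at h
    nlinarith
  have hδ1 : δ ≤ 1 := by nlinarith
  have h2d : 2 * d * δ ≤ 1 := by
    have h4 : (4 : ℝ) * d ≤ q := by
      have : 4 * d ≤ q := by omega
      exact_mod_cast this
    nlinarith
  have hL0 : (0 : ℝ) < L := by
    have : 0 < L := by omega
    exact_mod_cast this
  have hK0 : (0 : ℝ) < K := by exact_mod_cast n10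
  have hZ1 : (1 : ℝ) ≤ Z := by
    have : 1 ≤ Z := by omega
    exact_mod_cast this
  -- the two halves
  obtain ⟨K1, hK1⟩ : ∃ K1, K1 = K / 2 := ⟨_, rfl⟩
  obtain ⟨K2, hK2⟩ : ∃ K2, K2 = K - K / 2 := ⟨_, rfl⟩
  have hKK : K = K1 + K2 := by omega
  obtain ⟨T1, hT1⟩ : ∃ T1, T1 = TT (ed ∘ σ) ω A δ (K1 * (q * ms d L)) := ⟨_, rfl⟩
  obtain ⟨ω1, hω1⟩ : ∃ ω1 : ℕ → Bool, ω1 = sh (K1 * (q * ms d L)) ω := ⟨_, rfl⟩
  obtain ⟨A1, hA1⟩ : ∃ A1, A1 = A.image (gp (ed ∘ σ) ω (K1 * (q * ms d L))) := ⟨_, rfl⟩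
  obtain ⟨T2, hT2⟩ : ∃ T2, T2 = TT (ed ∘ σ) ω1 A1 δ (K2 * (q * ms d L)) := ⟨_, rfl⟩
  obtain ⟨P1, hP1⟩ : ∃ P1, P1 = PP (ed ∘ σ) δ (K1 * (q * ms d L)) := ⟨_, rfl⟩
  obtain ⟨P2, hP2⟩ : ∃ P2, P2 = PP (ed ∘ σ) δ (K2 * (q * ms d L)) := ⟨_, rfl⟩
  have hTT : TT (ed ∘ σ) ω A δ (K * (q * ms d L)) = T1 * T2 := by
    rw [hT1, hT2, hω1, hA1]
    conv_lhs => rw [hKK]
    exact TT_units Pool.Agent.Q68.LC.bas2 hσ ω A hδ.le hδ1 q K1 K2
  have hPP : PP (ed ∘ σ) δ (K * (q * ms d L)) = P1 * P2 := by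
    rw [hP1, hP2]
    conv_lhs => rw [hKK]
    exact PP_units hσ hδ.le hδ1 q K1 K2
  have hSUB := Pool.Agent.Q277.LC.sub
  have hE1 : Ev σ q K1 lam r ρ κ₀ ω A := by
    have h4 := (hSUB d L hL3 σ hσ q K lam r ρ κ₀ ω A hEv 0 K1 (by omega)).2
    have h5 : sh (0 * (q * ms d L)) ω = ω := by
      funext k
      simp [sh]
    have h6 : A.image (gp (ed ∘ σ) ω (0 * (q * ms d L))) = A := by
      rw [Nat.zero_mul]
      simp [gp]
    rw [h5, h6] at h4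
    exact h4
  have hE2 : Ev σ q K2 lam r ρ κ₀ ω1 A1 := by
    rw [hω1, hA1]
    exact (hSUB d L hL3 σ hσ q K lam r ρ κ₀ ω A hEv K1 K2 (by omega)).2
  have hbs : ∀ (ω : ℕ → Bool) (A : Finset (Fin d → ZMod L)) (n : ℕ),
      BS (TT (ed ∘ σ) ω A δ n) := by
    intro ω A n
    have h := Pool.Agent.Q68.LC.bas2 _ (ed ∘ σ) ω A δ hδ.le hδ1
    exact ⟨h.1 n, fun x => (h.2.1 n x).le, fun y => (h.2.2.1 n y).le⟩
  have bT1 : BS T1 := by rw [hT1]; exact hbs _ _ _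
  have bT2 : BS T2 := by rw [hT2]; exact hbs _ _ _
  have bP1 : BS P1 := by rw [hP1]; exact hbs _ _ _
  have bP2 : BS P2 := by rw [hP2]; exact hbs _ _ _
  -- sup bounds
  obtain ⟨s1, hs1⟩ : ∃ s1 : ℝ, s1 = Cf * ((K2 : ℝ) ^ (-(d / 2 : ℝ)) + 1 / (L : ℝ) ^ d) :=
    ⟨_, rfl⟩
  obtain ⟨s2, hs2⟩ : ∃ s2 : ℝ, s2 = C1 / (L : ℝ) ^ d + (c * K1) ^ (-(d / 2 : ℝ)) := ⟨_, rfl⟩
  have hK1r : (K : ℝ) ≤ 3 * K1 := by rw [hK1]; exact_mod_cast n8
  have hK2r : (K : ℝ) ≤ 3 * K2 := by rw [hK2]; exact_mod_cast n9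
  have hK1p : (0 : ℝ) < K1 := by linarith
  have hK2p : (0 : ℝ) < K2 := by linarith
  have hK11 : (1 : ℝ) ≤ K1 := by
    have h3 : 0 < K1 := by exact_mod_cast hK1p
    have h4 : 1 ≤ K1 := h3
    exact_mod_cast h4
  have hs1n : 0 ≤ s1 := by
    rw [hs1]
    have : 0 ≤ Cf := by linarith
    positivity
  have hs2n : 0 ≤ s2 := by
    rw [hs2]
    positivity
  have hsup1 : ∀ x y, P2 x y ≤ s1 := by
    intro x y
    have hK2K : K2 * q ≤ K * q := Nat.mul_le_mul_right _ (by omega)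
    have h := (hq2 q (by omega) σ hσ δ h1 h2).1 (K2 * q) hK2K x y
    rw [Nat.mul_assoc, ← hP2] at h
    refine h.trans ?_
    rw [hs1]
    refine mul_le_mul_of_nonneg_left ?_ (by linarith)
    refine add_le_add ?_ le_rfl
    refine Real.rpow_le_rpow_of_nonpos hK2p ?_ (by
      rw [neg_nonpos]
      positivity)
    push_cast
    nlinarith
  have hdg : ∀ x y, (dg (univ \ A) * T1) x y = (if x ∈ univ \ A then 1 else 0) * T1 x y := by
    intro x y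
    unfold dg
    rw [Matrix.diagonal_mul]
  have hsup2 : ∀ x y, (dg (univ \ A) * T1) x y ≤ s2 := by
    intro x z
    rw [hdg]
    by_cases hx : x ∈ univ \ A
    · rw [if_pos hx, one_mul]
      have h := hq1 q (by omega) σ hσ δ h1 h2 ω A (by rw [← hK1]; exact hE1) ∅ x z
        (disjoint_empty_left _) (mem_sdiff.1 hx).2 0
      rw [pow_zero, Matrix.mul_one, ← hK1, ← hT1] at h
      refine h.trans (le_of_eq ?_)
      rw [hs2]
      simp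
    · rw [if_neg hx, zero_mul]
      exact hs2n
  -- l1 distances
  have hcc1 : ∑ x, ∑ y, (|P1 x y - T1 x y| + if x ∈ A then P1 x y else 0) ≤
      (8 * ρ + 16 * d + 1) * (K1 * A.card) := by
    have e1 : ∀ x, ∑ y, |P1 x y - T1 x y| ≤ cc (ed ∘ σ) ω A δ (K1 * (q * ms d L)) x := by
      intro x
      rw [hP1, hT1]
      exact Pool.Agent.Q151.LC.con1 _ (ed ∘ σ) ω A δ _ x hδ.le hδ1
    have e2 : ∑ x, cc (ed ∘ σ) ω A δ (K1 * (q * ms d L)) x ≤ (8 * ρ + 16 * d) * (K1 * A.card) := by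
      refine cc_sum hd1 hL3 hσ ω A δ q K1 ρ hδ h2d h2 fun i hi a ha => ?_
      exact hEv.2.1 i (by omega) a ha
    have e3 : ∀ x, ∑ y, (if x ∈ A then P1 x y else 0) ≤ if x ∈ A then (1 : ℝ) else 0 := by
      intro x
      split_ifs
      · exact bP1.row x
      · rw [sum_const_zero]
    have e4 : ∑ x, (if x ∈ A then (1 : ℝ) else 0) = A.card := by
      rw [Finset.sum_ite_mem, univ_inter, sum_const, nsmul_eq_mul, mul_one]
    have e5 : (A.card : ℝ) ≤ K1 * A.card :=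
      le_mul_of_one_le_left (Nat.cast_nonneg _) hK11
    have e6 : ∑ x, ∑ y, (|P1 x y - T1 x y| + if x ∈ A then P1 x y else 0) =
        ∑ x, ∑ y, |P1 x y - T1 x y| + ∑ x, ∑ y, (if x ∈ A then P1 x y else 0) := by
      rw [← sum_add_distrib]
      exact sum_congr rfl fun x _ => sum_add_distrib
    have e7 := (sum_le_sum fun x (_ : x ∈ univ) => e1 x).trans e2
    have e8 := (sum_le_sum fun x (_ : x ∈ univ) => e3 x).trans (le_of_eq e4)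
    rw [e6]
    linarith
  have hcc2 : ∑ x, ∑ y, |P2 x y - T2 x y| ≤ (8 * ρ + 16 * d) * (K2 * A.card) := by
    have e1 : ∀ x, ∑ y, |P2 x y - T2 x y| ≤ cc (ed ∘ σ) ω1 A1 δ (K2 * (q * ms d L)) x := by
      intro x
      rw [hP2, hT2]
      exact Pool.Agent.Q151.LC.con1 _ (ed ∘ σ) ω1 A1 δ _ x hδ.le hδ1
    refine (sum_le_sum fun x _ => e1 x).trans ?_
    refine (cc_sum hd1 hL3 hσ ω1 A1 δ q K2 ρ hδ h2d h2 fun i hi a ha => ?_).trans ?_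
    · exact hE2.2.1 i hi a ha
    · have : (A1.card : ℝ) ≤ A.card := by
        rw [hA1]
        exact_mod_cast card_image_le
      refine mul_le_mul_of_nonneg_left ?_ (by positivity)
      exact mul_le_mul_of_nonneg_left this hK2p.le
  have hcc2' : ∑ x, ∑ y, |P2 x y - T2 x y| ≤ (8 * ρ + 16 * d + 1) * (K2 * A.card) := by
    have : 0 ≤ (K2 : ℝ) * A.card := mul_nonneg hK2p.le (Nat.cast_nonneg _)
    linarith
  -- the trace
  have key := tr_pow P1 P2 (dg (univ \ A) * T1) T2 bP1 bP2 (BS_dg _ bT1) bT2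
    (fun x y => |P1 x y - T1 x y| + if x ∈ A then P1 x y else 0)
    (fun x y => |P2 x y - T2 x y|) (fun x y => add_nonneg (abs_nonneg _) (by
      split_ifs
      · exact bP1.nn x y
      · exact le_rfl))
    (fun _ _ => abs_nonneg _) s1 s2 _ _ hs1n hs2n ?_ hcc1 (fun x y => Or.inl fun z => hsup1 y z)
    ?_ hcc2' hsup2 (j + 1) 0
  · rw [pow_zero, Matrix.mul_one, Nat.add_zero, Matrix.mul_assoc, ← hTT, ← hPP] at key
    rw [tr_dg]
    refine key.trans (add_le_add le_rfl ?_)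
    push_cast
    refine mul_le_mul_of_nonneg_left ?_ (by positivity)
    -- numbers
    have hA0 : (0 : ℝ) ≤ A.card := Nat.cast_nonneg _
    have hρr : (ρ : ℝ) ≤ Z := by exact_mod_cast hρ
    have hK1K : (K1 : ℝ) ≤ K := by
      have : K1 ≤ K := by omega
      exact_mod_cast this
    have hK2K : (K2 : ℝ) ≤ K := by
      have : K2 ≤ K := by omega
      exact_mod_cast this
    have hdneg : (-(d / 2 : ℝ)) ≤ 0 :=
      neg_nonpos.2 (div_nonneg (Nat.cast_nonneg _) (by norm_num))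
    have f1 : (c * K1) ^ (-(d / 2 : ℝ)) ≤ (c / 3) ^ (-(d / 2 : ℝ)) * (K : ℝ) ^ (-(d / 2 : ℝ)) := by
      rw [← Real.mul_rpow (div_nonneg hc.le (by norm_num)) hK0.le]
      refine Real.rpow_le_rpow_of_nonpos (mul_pos (div_pos hc (by norm_num)) hK0) ?_ hdneg
      exact numE c K K1 hc hK1r
    have f2 : (K2 : ℝ) ^ (-(d / 2 : ℝ)) ≤ (1 / 3 : ℝ) ^ (-(d / 2 : ℝ)) *
        (K : ℝ) ^ (-(d / 2 : ℝ)) := by
      rw [← Real.mul_rpow (by norm_num) hK0.le]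
      refine Real.rpow_le_rpow_of_nonpos (mul_pos (by norm_num) hK0) ?_ hdneg
      exact numF K K2 hK2r
    have hCS : S ≤ ((⌈S⌉₊ : ℝ) + (C1 : ℝ)) :=
      (Nat.le_ceil S).trans (le_add_of_nonneg_right (Nat.cast_nonneg _))
    have hX0 : 0 ≤ (K : ℝ) ^ (-(d / 2 : ℝ)) := Real.rpow_nonneg hK0.le _
    have hY0 : 0 ≤ 1 / (L : ℝ) ^ d := div_nonneg zero_le_one (pow_nonneg hL0.le d)
    have hc3n : 0 ≤ (c / 3) ^ (-(d / 2 : ℝ)) := Real.rpow_nonneg (div_nonneg hc.le (by norm_num)) _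
    have hc4n : 0 ≤ (1 / 3 : ℝ) ^ (-(d / 2 : ℝ)) := Real.rpow_nonneg (by norm_num) _
    have g1 := numA' ((c / 3) ^ (-(d / 2 : ℝ))) C1 ((K : ℝ) ^ (-(d / 2 : ℝ))) (1 / (L : ℝ) ^ d) _ f1
      hc3n (Nat.cast_nonneg _) hX0 hY0
    have g2 := numB Cf ((1 / 3 : ℝ) ^ (-(d / 2 : ℝ))) ((K : ℝ) ^ (-(d / 2 : ℝ))) (1 / (L : ℝ) ^ d)
      _ f2 (zero_le_one.trans hCf) hc4n hX0 hY0
    have g4 := numC' ρ Z d K1 K A.card hρr (Nat.cast_nonneg _) hZ1 (Nat.cast_nonneg _) hK1p.le hK1K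
      hA0
    have g5 := numC' ρ Z d K2 K A.card hρr (Nat.cast_nonneg _) hZ1 (Nat.cast_nonneg _) hK2p.le hK2K
      hA0
    have g2' : s2 ≤ ((c / 3) ^ (-(d / 2 : ℝ)) + C1) *
        ((K : ℝ) ^ (-(d / 2 : ℝ)) + 1 / (L : ℝ) ^ d) := by
      refine le_trans (le_of_eq ?_) g1
      rw [hs2]
      ring
    have g1' : s1 ≤ (Cf * ((1 / 3 : ℝ) ^ (-(d / 2 : ℝ)) + 1)) *
        ((K : ℝ) ^ (-(d / 2 : ℝ)) + 1 / (L : ℝ) ^ d) := by
      rw [hs1]
      exact g2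
    have hXY : 0 ≤ (K : ℝ) ^ (-(d / 2 : ℝ)) + 1 / (L : ℝ) ^ d := add_nonneg hX0 hY0
    have hW0 : 0 ≤ (Z : ℝ) * K * A.card :=
      mul_nonneg (mul_nonneg (Nat.cast_nonneg _) (Nat.cast_nonneg _)) hA0
    have hc30 : 0 ≤ (c / 3) ^ (-(d / 2 : ℝ)) + (C1 : ℝ) := add_nonneg hc3n (Nat.cast_nonneg _)
    have hc40 : 0 ≤ Cf * ((1 / 3 : ℝ) ^ (-(d / 2 : ℝ)) + 1) :=
      mul_nonneg (zero_le_one.trans hCf) (add_nonneg hc4n zero_le_one)
    have hρd : 0 ≤ 8 * (ρ : ℝ) + 16 * d + 1 :=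
      add_nonneg (add_nonneg (mul_nonneg (by norm_num) (Nat.cast_nonneg _))
        (mul_nonneg (by norm_num) (Nat.cast_nonneg _))) zero_le_one
    have t1n : 0 ≤ (8 * (ρ : ℝ) + 16 * d + 1) * (K1 * A.card) :=
      mul_nonneg hρd (mul_nonneg hK1p.le hA0)
    have t2n : 0 ≤ (8 * (ρ : ℝ) + 16 * d + 1) * (K2 * A.card) :=
      mul_nonneg hρd (mul_nonneg hK2p.le hA0)
    exact numD' _ _ _ _ _ _ _ _ S _ d g1' g2' g4 g5 hc40 hc30 hXY hW0 t1n t2n (Nat.cast_nonneg _)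
      hS hCS
  · intro x y
    rw [hdg]
    have f1 := abs_nonneg (P1 x y - T1 x y)
    have f2 := le_abs_self (P1 x y - T1 x y)
    have f3 := bP1.nn x y
    by_cases hx : x ∈ A
    · rw [if_neg (fun h => (mem_sdiff.1 h).2 hx), if_pos hx]
      linarith
    · rw [if_pos (mem_sdiff.2 ⟨mem_univ _, hx⟩), if_neg hx]
      linarith
  · intro y x
    have f2 := le_abs_self (P2 y x - T2 y x)
    linarith

end Pool.Agent.H784.MS
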